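import Pool.Agent.Lib.MP_c46995_nt.Infinite

/-!
# Base-4 valuation of coloured 4-ary partition counts under index shifts

Affirmative answer to Q1.  The infinite product is taken in `ℤ⟦X⟧` with its usual (coefficientwise)
topology; it converges (`multipliable_prod`) and the denominator below is a unit
(`isUnit_denominator`), so `Ring.inverse` is the genuine inverse power series.
-/

namespace Pool.Agent.Results.MP_c46995_nt.IndexShift

open PowerSeries PowerSeries.WithPiTopology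

/-- `S4 t n = S_{4,t}(n)`: the coefficient of `x^n` in
`(1 - x)^{-t} ∏_{i ≥ 0} (1 - x^{4^i})^{-3t}`, as the inverse in `ℤ⟦X⟧` of the convergent product
`(1 - x)^t ∏_{i ≥ 0} (1 - x^{4^i})^{3t}`. -/
noncomputable def S4 (t n : ℕ) : ℤ :=
  coeff n (Ring.inverse ((1 - X) ^ t * ∏' i : ℕ, (1 - X ^ 4 ^ i) ^ (3 * t)) : ℤ⟦X⟧)

/-- sanity: the infinite product converges -/
theorem multipliable_prod (t : ℕ) :
    Multipliable fun i : ℕ => ((1 : ℤ⟦X⟧) - X ^ 4 ^ i) ^ (3 * t) :=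
  Lib.MP_c46995_nt.multipliable_prod t

/-- sanity: the denominator is a unit of `ℤ⟦X⟧` -/
theorem isUnit_denominator (t : ℕ) :
    IsUnit ((1 - X) ^ t * ∏' i : ℕ, (1 - X ^ 4 ^ i) ^ (3 * t) : ℤ⟦X⟧) :=
  Lib.MP_c46995_nt.isUnit_den t

/-- sanity: the defining power series identity of the problem -/
theorem mk_S4_mul (t : ℕ) :
    PowerSeries.mk (S4 t) * ((1 - X) ^ t * ∏' i : ℕ, (1 - X ^ 4 ^ i) ^ (3 * t)) = 1 := by
  have h : PowerSeries.mk (S4 t) =
      Ring.inverse ((1 - X) ^ t * ∏' i : ℕ, (1 - X ^ 4 ^ i) ^ (3 * t)) := by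
    ext n; rw [coeff_mk]; rfl
  rw [h]
  exact Ring.inverse_mul_cancel _ (isUnit_denominator t)

/-- For all `s ≥ 3` and all `m, n ≥ 0`,
`φ₄(S_{4, 2^s m + 2^(s-1)}(n)) = φ₄(S_{4, 2^(s-1)}(n))`. -/
theorem result (s m n : ℕ) (hs : 3 ≤ s) :
    emultiplicity 4 (S4 (2 ^ s * m + 2 ^ (s - 1)) n) = emultiplicity 4 (S4 (2 ^ (s - 1)) n) := by
  obtain ⟨k, rfl⟩ := Nat.exists_eq_add_of_le' hs
  have hS : ∀ t, S4 t n = coeff n (Ring.inverse (Lib.MP_c46995_nt.den t)) := fun t => rfl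
  rw [hS, hS]
  rcases Nat.eq_zero_or_pos n with rfl | hn
  · rw [Lib.MP_c46995_nt.coeff_zero_inverse, Lib.MP_c46995_nt.coeff_zero_inverse]
  · have hM : n < 4 ^ n := Nat.lt_pow_self (by norm_num)
    obtain ⟨a, ha⟩ := Lib.MP_c46995_nt.coeff_prod_val k n n hn hM
    apply Lib.MP_c46995_nt.emult_congr a
    · obtain ⟨o, ho, h⟩ := ha (2 * m + 1) ⟨m, rfl⟩
      refine ⟨o, ho, ?_⟩
      rw [Lib.MP_c46995_nt.coeff_inverse _ n n hM, ← h]
      have : 2 ^ (k + 3) * m + 2 ^ (k + 3 - 1) = 2 ^ (k + 2) * (2 * m + 1) := by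
        rw [show k + 3 - 1 = k + 2 by omega, pow_succ 2 (k + 2)]; ring
      rw [this]
    · obtain ⟨o, ho, h⟩ := ha 1 odd_one
      refine ⟨o, ho, ?_⟩
      rw [Lib.MP_c46995_nt.coeff_inverse _ n n hM, ← h]
      have : 2 ^ (k + 3 - 1) = 2 ^ (k + 2) * 1 := by
        rw [show k + 3 - 1 = k + 2 by omega, mul_one]
      rw [this]

end Pool.Agent.Results.MP_c46995_nt.IndexShift
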